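import Pool.Agent.Run7.h90.AP.Poly

/-!
# The fundamental lemma for sets of residues with small exponential sums
-/

set_option autoImplicit false
set_option linter.all false

namespace Pool.Agent.Run7.h90.AP

open Finset Filter
open Run7.h870.LI
open Pool.Agent.N825.FC (rep rep_gt rep_le rep_cast rep_unique eqd)
open scoped Classical

/-- the elements of an interval in given residue classes with a given property -/
theorem transfer (p : ℕ) [NeZero p] (S : Finset (ZMod p)) (M L : ℕ) (hL : L ≤ p) (c : ℕ → Prop) :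
    ((Ioc M (M + L)).filter fun n : ℕ => (n : ZMod p) ∈ S ∧ c n).card =
      ((S.filter fun v => rep (M : ℤ) v ≤ M + L).filter fun v => c (rep (M : ℤ) v).toNat).card := by
  have hcast : ∀ v : ZMod p, (((rep (M : ℤ) v).toNat : ℕ) : ℤ) = rep (M : ℤ) v := by
    intro v
    have := rep_gt (M : ℤ) v
    omega
  have hcz : ∀ v : ZMod p, (((rep (M : ℤ) v).toNat : ℕ) : ZMod p) = v := by
    intro v
    have h1 := rep_cast (M : ℤ) v
    rw [← hcast v, Int.cast_natCast] at h1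
    exact h1
  refine card_bij' (fun n _ => (n : ZMod p)) (fun v _ => (rep (M : ℤ) v).toNat) ?_ ?_ ?_ ?_
  · intro n hn
    rw [mem_filter, mem_Ioc] at hn
    have h1 : ((n : ℕ) : ℤ) = rep (M : ℤ) ((n : ℕ) : ZMod p) := by
      apply rep_unique
      · exact_mod_cast hn.1.1
      · have : n ≤ M + p := hn.1.2.trans (by omega)
        exact_mod_cast this
      · norm_cast
    rw [mem_filter, mem_filter]
    refine ⟨⟨hn.2.1, ?_⟩, ?_⟩
    · rw [← h1]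
      exact_mod_cast hn.1.2
    · rw [← h1, Int.toNat_natCast]
      exact hn.2.2
  · intro v hv
    rw [mem_filter, mem_filter] at hv
    have h1 := rep_gt (M : ℤ) v
    rw [mem_filter, mem_Ioc]
    refine ⟨⟨by omega, by omega⟩, ?_, hv.2⟩
    rw [hcz]
    exact hv.1.1
  · intro n hn
    rw [mem_filter, mem_Ioc] at hn
    have h1 : ((n : ℕ) : ℤ) = rep (M : ℤ) ((n : ℕ) : ZMod p) := by
      apply rep_unique
      · exact_mod_cast hn.1.1
      · have : n ≤ M + p := hn.1.2.trans (by omega)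
        exact_mod_cast this
      · norm_cast
    rw [← h1, Int.toNat_natCast]
  · intro v hv
    exact hcz v

/-- counts in residue classes to moduli prime to `p` -/
theorem classes (p : ℕ) [NeZero p] (S : Finset (ZMod p)) (W : ℝ) (hW0 : 0 ≤ W)
    (hW : ∀ ξ : ZMod p, ξ ≠ 0 → ‖∑ v ∈ S, ZMod.stdAddChar (ξ * v)‖ ≤ W)
    (M L : ℕ) (hL : L ≤ p) (q : ℕ) (hq : 1 ≤ q) (hpq : Nat.Coprime p q) (a : ℕ) (ha : a < q) :
    |(((S.filter fun v => rep (M : ℤ) v ≤ M + L).filter fun v =>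
      (rep (M : ℤ) v).toNat % q = a).card : ℝ) - (S.card * ((L : ℝ) / p)) / q| ≤
      W * (2 + Real.log p) + S.card / p := by
  have h := eqd p S 1 (fun v _ => v) W (fun h hh => by
    have h0 : h 0 ≠ 0 := by
      intro h0
      apply hh
      funext j
      rw [Subsingleton.elim j 0, h0]
      rfl
    have h1 := hW (h 0) h0
    simpa using h1) hW0 (fun _ => (M : ℤ)) L hL q hq hpq (fun _ => (a : ℤ))
  have e1 : (S.filter fun v => ∀ j : Fin 1, rep (M : ℤ) v ≤ M + L ∧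
      (q : ℤ) ∣ rep (M : ℤ) v - (a : ℤ)) =
      (S.filter fun v => rep (M : ℤ) v ≤ M + L).filter fun v =>
      (rep (M : ℤ) v).toNat % q = a := by
    rw [filter_filter]
    apply filter_congr
    intro v _
    have h2 := rep_gt (M : ℤ) v
    have h3 : ((q : ℤ) ∣ rep (M : ℤ) v - (a : ℤ)) ↔ (rep (M : ℤ) v).toNat % q = a := by
      obtain ⟨m, hm⟩ : ∃ m : ℕ, rep (M : ℤ) v = m := ⟨(rep (M : ℤ) v).toNat, by omega⟩
      rw [hm, Int.toNat_natCast]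
      rw [← Int.modEq_iff_dvd, Int.natCast_modEq_iff]
      unfold Nat.ModEq
      rw [Nat.mod_eq_of_lt ha]
      exact eq_comm
    constructor
    · intro h4
      exact ⟨(h4 0).1, h3.1 (h4 0).2⟩
    · rintro ⟨h4, h5⟩ _
      exact ⟨h4, h3.2 h5⟩
  rw [e1] at h
  simp only [pow_one, Nat.cast_one] at h
  have e2 : (S.card : ℝ) * ((L : ℝ) / p / q) = (S.card * ((L : ℝ) / p)) / q := by ring
  have e3 : (S.card : ℝ) * (1 / (p : ℝ)) = S.card / p := by ring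
  rw [e2, e3] at h
  exact h

theorem exJ (z : ℕ) (hz : 1 ≤ z) : ∃ J : ℕ, z ≤ 2 ^ 2 ^ J ∧ 2 ^ 2 ^ J ≤ 2 * z ^ 2 ∧
    J + 1 ≤ 2 ^ 2 ^ J := by
  have hbig : ∃ J : ℕ, z ≤ 2 ^ 2 ^ J := by
    refine ⟨z, ?_⟩
    have h1 : z < 2 ^ z := Nat.lt_two_pow_self
    have h2 : 2 ^ z ≤ 2 ^ 2 ^ z := Nat.pow_le_pow_right (by norm_num) h1.le
    omega
  have h3 : ∀ J : ℕ, J + 1 ≤ 2 ^ 2 ^ J := by
    intro J
    have h1 : J < 2 ^ J := Nat.lt_two_pow_self
    have h2 : 2 ^ J < 2 ^ 2 ^ J := Nat.lt_two_pow_self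
    omega
  refine ⟨Nat.find hbig, Nat.find_spec hbig, ?_, h3 _⟩
  rcases Nat.eq_zero_or_pos (Nat.find hbig) with h0 | h0
  · rw [h0]
    have : 1 ≤ z ^ 2 := Nat.one_le_pow _ _ hz
    norm_num
    omega
  · obtain ⟨k, hk⟩ := Nat.exists_eq_succ_of_ne_zero h0.ne'
    have h1 : ¬ z ≤ 2 ^ 2 ^ k := Nat.find_min hbig (by omega)
    rw [hk, Nat.succ_eq_add_one]
    have h2 : (2 : ℕ) ^ 2 ^ (k + 1) = (2 ^ 2 ^ k) ^ 2 := by
      rw [← pow_mul, pow_succ]
    rw [h2]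
    have h4 : (2 ^ 2 ^ k) ^ 2 ≤ z ^ 2 := Nat.pow_le_pow_left (by omega) 2
    omega

theorem ev_log (K s : ℝ) (hs : 0 < s) : ∀ᶠ x : ℝ in atTop, K * (3 + Real.log x) ≤ x ^ s := by
  have h := (isLittleO_log_rpow_atTop hs).def (show (0 : ℝ) < 1 / (2 * (|K| + 1)) by positivity)
  have h2 := (tendsto_rpow_atTop hs).eventually_ge_atTop (6 * (|K| + 1))
  filter_upwards [h, h2, eventually_ge_atTop (1 : ℝ)] with x h1 h2 h3
  rw [Real.norm_eq_abs, abs_of_nonneg (Real.log_nonneg h3), Real.norm_eq_abs,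
    abs_of_nonneg (Real.rpow_nonneg (by linarith) _)] at h1
  have h4 : (|K| + 1) * Real.log x ≤ x ^ s / 2 := by
    have := mul_le_mul_of_nonneg_left h1 (show 0 ≤ |K| + 1 by positivity)
    refine this.trans (le_of_eq ?_)
    field_simp
  have h5 : K ≤ |K| + 1 := by linarith [le_abs_self K]
  have h6 : 0 ≤ 3 + Real.log x := by linarith [Real.log_nonneg h3]
  have h7 := mul_le_mul_of_nonneg_right h5 h6
  linarith

/-- **The fundamental lemma** for a set of residues with small exponential sums. -/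
theorem fund (F : Polynomial ℤ) (hF : ∀ l : ℕ, l.Prime → ∃ n : ℤ, ¬ (l : ℤ) ∣ F.eval n)
    (ε : ℝ) (hε : 0 < ε) : ∃ δ : ℝ, 0 < δ ∧ ∀ b : ℕ, 1 ≤ b → ∃ P₀ : ℝ, ∀ (p : ℕ) [Fact p.Prime],
      P₀ ≤ p → ∀ S : Finset (ZMod p),
      (∀ ξ : ZMod p, ξ ≠ 0 → ‖∑ v ∈ S, ZMod.stdAddChar (ξ * v)‖ ≤ (p : ℝ) ^ (-ε) * S.card) →
      ∀ M L z : ℕ, (p : ℝ) ^ (1 - δ) ≤ L → L ≤ p → 1 ≤ z → (z : ℝ) ≤ (p : ℝ) ^ (δ / b) →
      |(((Ioc M (M + L)).filter fun n : ℕ => (n : ZMod p) ∈ S ∧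
          ∀ l ∈ (range (z + 1)).filter Nat.Prime, ¬ QF F l n).card : ℝ) -
        S.card * ((L : ℝ) / p) * V F z| ≤ (1 / 2) ^ b * (S.card * ((L : ℝ) / p) * V F z) := by
  obtain ⟨C, hC1, HF⟩ := fllF
  obtain ⟨cV, hcV, hV⟩ := V_low hF
  set κ := F.natDegree with hκ
  set ε' : ℝ := min ε 1 with hε'
  have hε'0 : 0 < ε' := lt_min hε one_pos
  have hε'1 : ε' ≤ 1 := min_le_right _ _
  have hε'ε : ε' ≤ ε := min_le_left _ _
  obtain ⟨K0, hK0⟩ : ∃ K0, K0 = ∏ p ∈ Icc 1 (C * (κ + 1)), p := ⟨_, rfl⟩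
  have hK01 : 1 ≤ K0 := by
    rw [hK0]
    exact Nat.one_le_iff_ne_zero.2 (prod_ne_zero_iff.2 fun p hp => by
      have := (mem_Icc.1 hp).1
      omega)
  set G1 : ℝ := 8 * C ^ 2 * (κ + 1) + 2 + 2 * κ with hG1
  have hG10 : 1 ≤ G1 := by
    rw [hG1]
    have h1 : (0 : ℝ) ≤ 8 * C ^ 2 * (κ + 1) := by positivity
    have h2 : (0 : ℝ) ≤ κ := Nat.cast_nonneg κ
    linarith
  set δ : ℝ := ε' / (8 * G1) with hδ
  have hδ0 : 0 < δ := by positivity
  have hδG : δ * G1 = ε' / 8 := by rw [hδ]; field_simp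
  have hδ8 : δ ≤ ε' / 8 := by rw [← hδG]; exact le_mul_of_one_le_right hδ0.le hG10
  refine ⟨δ, hδ0, ?_⟩
  intro b hb
  obtain ⟨B, hB⟩ : ∃ B, B = C * (κ + 1) * (b + 1) := ⟨_, rfl⟩
  have hB1 : C * (κ + 1) ≤ B := by rw [hB]; exact Nat.le_mul_of_pos_right _ (by omega)
  have hB2 : b + 1 ≤ B := by
    rw [hB]
    exact Nat.le_mul_of_pos_left _ (Nat.mul_pos (by omega) (by omega))
  -- constants
  obtain ⟨K1, hK1⟩ : ∃ K1 : ℝ, K1 = (K0 : ℝ) ^ 2 * 2 ^ (2 * C * B + 1) * 2 ^ (b + 1) / cV := ⟨_, rfl⟩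
  have hK10 : 0 < K1 := by
    rw [hK1]
    have : (0 : ℝ) < K0 := by exact_mod_cast hK01
    positivity
  obtain ⟨P₁, hP₁⟩ := eventually_atTop.1 ((ev_log K1 (ε' / 2) (by positivity)).and
    ((ev_log ((K0 : ℝ) * 2 ^ (C * B)) (1 / 2) (by norm_num)).and (eventually_ge_atTop (2 : ℝ))))
  refine ⟨P₁, ?_⟩
  intro p hp hpP S hS M L z hL1 hL2 hz1 hz2
  obtain ⟨hlog, hD, hp2⟩ := hP₁ p hpP
  have hp0 : (0 : ℝ) < p := by linarith
  have hp1 : (1 : ℝ) ≤ p := by linarith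
  have hlog0 : 0 ≤ Real.log p := Real.log_nonneg hp1
  have hb0 : (1 : ℝ) ≤ b := by exact_mod_cast hb
  have hz1' : (1 : ℝ) ≤ z := by exact_mod_cast hz1
  obtain ⟨J, hJ1, hJ2, hJ3⟩ := exJ z hz1
  obtain ⟨D, hDdef⟩ : ∃ D, D = K0 * (2 ^ 2 ^ J) ^ (C * B) := ⟨_, rfl⟩
  -- powers of z
  have hzpow : ∀ G : ℕ, (G : ℝ) ≤ G1 * b → (z : ℝ) ^ G ≤ (p : ℝ) ^ (ε' / 8) := by
    intro G hG
    calc (z : ℝ) ^ G ≤ ((p : ℝ) ^ (δ / b)) ^ G := pow_le_pow_left₀ (by linarith) hz2 G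
      _ = (p : ℝ) ^ (δ / b * G) := by rw [← Real.rpow_natCast, ← Real.rpow_mul hp0.le]
      _ ≤ (p : ℝ) ^ (ε' / 8) := by
          apply Real.rpow_le_rpow_of_exponent_le hp1
          rw [← hδG, div_mul_eq_mul_div, div_le_iff₀ (by linarith)]
          calc δ * G ≤ δ * (G1 * b) := mul_le_mul_of_nonneg_left hG hδ0.le
            _ = δ * G1 * b := by ring
  have hBr : (B : ℝ) ≤ 2 * C * (κ + 1) * b := by
    have h1 : (b : ℝ) + 1 ≤ 2 * b := by linarith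
    have h2 : (B : ℝ) = C * (κ + 1) * (b + 1) := by rw [hB]; push_cast; ring
    rw [h2]
    have h3 : (0 : ℝ) ≤ C * (κ + 1) := by positivity
    have := mul_le_mul_of_nonneg_left h1 h3
    linarith
  have hκ0 : (0 : ℝ) ≤ κ := Nat.cast_nonneg κ
  have hCr : (1 : ℝ) ≤ C := by exact_mod_cast hC1
  have hG : ((2 * (2 * C * B + 1) + 2 * κ : ℕ) : ℝ) ≤ G1 * b := by
    push_cast
    have h1 : (C : ℝ) * B ≤ C * (2 * C * (κ + 1) * b) := mul_le_mul_of_nonneg_left hBr (by linarith)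
    have h2 : (2 + 2 * κ : ℝ) ≤ (2 + 2 * κ) * b := le_mul_of_one_le_right (by linarith) hb0
    rw [hG1]
    nlinarith
  have hG' : ((2 * (C * B) : ℕ) : ℝ) ≤ G1 * b := by
    refine le_trans ?_ hG
    have : 2 * (C * B) ≤ 2 * (2 * C * B + 1) + 2 * κ := by nlinarith [Nat.zero_le (C * B)]
    exact_mod_cast this
  have hJ2' : ((2 ^ 2 ^ J : ℕ) : ℝ) ≤ 2 * (z : ℝ) ^ 2 := by exact_mod_cast hJ2
  have hDr : (D : ℝ) ≤ K0 * (2 * (z : ℝ) ^ 2) ^ (C * B) := by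
    rw [hDdef, Nat.cast_mul, Nat.cast_pow]
    exact mul_le_mul_of_nonneg_left (pow_le_pow_left₀ (Nat.cast_nonneg _) hJ2' _) (Nat.cast_nonneg _)
  have hDp : D < p := by
    have h1 : (D : ℝ) < p := by
      have h2 : (K0 : ℝ) * (2 * (z : ℝ) ^ 2) ^ (C * B) =
          (K0 * 2 ^ (C * B)) * (z : ℝ) ^ (2 * (C * B)) := by
        rw [mul_pow, ← pow_mul]; ring
      have h3 := hzpow _ hG'
      have h4 : (p : ℝ) ^ (ε' / 8) ≤ (p : ℝ) ^ (1 / 2 : ℝ) :=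
        Real.rpow_le_rpow_of_exponent_le hp1 (by linarith)
      have h5 : (K0 : ℝ) * 2 ^ (C * B) * 3 ≤ (p : ℝ) ^ (1 / 2 : ℝ) := by
        refine le_trans ?_ hD
        exact mul_le_mul_of_nonneg_left (by linarith) (by positivity)
      have h6 : (p : ℝ) ^ (1 / 2 : ℝ) * (p : ℝ) ^ (1 / 2 : ℝ) = p := by
        rw [← Real.rpow_add hp0]; norm_num
      have h7 : (0 : ℝ) < (p : ℝ) ^ (1 / 2 : ℝ) := by positivity
      calc (D : ℝ) ≤ (K0 * 2 ^ (C * B)) * (z : ℝ) ^ (2 * (C * B)) := by rw [← h2]; exact hDr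
        _ ≤ ((p : ℝ) ^ (1 / 2 : ℝ) / 3) * (p : ℝ) ^ (1 / 2 : ℝ) := by
            apply mul_le_mul _ (h3.trans h4) (by positivity) (by positivity)
            linarith
        _ < p := by
            rw [div_mul_eq_mul_div, h6]
            linarith
    exact_mod_cast h1
  -- the error term
  obtain ⟨E, hE⟩ : ∃ E : ℝ, E = ((p : ℝ) ^ (-ε) * S.card) * (2 + Real.log p) + S.card / p :=
    ⟨_, rfl⟩
  have hE0 : 0 ≤ E := by rw [hE]; positivity
  have hcls : ∀ q, 1 ≤ q → q ≤ D → ∀ a < q,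
      |(((S.filter fun v => rep (M : ℤ) v ≤ M + L).filter fun v =>
        (rep (M : ℤ) v).toNat % q = a).card : ℝ) - (S.card * ((L : ℝ) / p)) / q| ≤ E := by
    intro q hq1 hq2 a ha
    rw [hE]
    refine classes p S _ (by positivity) hS M L hL2 q hq1 ?_ a ha
    exact ((Fact.out : p.Prime).coprime_iff_not_dvd).2 fun h => by
      have := Nat.le_of_dvd (by omega) h
      omega
  have hA0 : (0 : ℝ) ≤ S.card * ((L : ℝ) / p) := by positivity
  have key := HF κ B J D ((range (z + 1)).filter Nat.Prime) hB1 (fun l hl => by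
      rw [mem_filter, mem_range] at hl
      exact ⟨hl.2, by omega⟩) (by rw [hDdef, hK0]) (QF F) (per_QF F) (fun l hl => by
      have hlp := (mem_filter.1 hl).2
      exact rr_deg hlp (hF l hlp)) (ZMod p) (S.filter fun v => rep (M : ℤ) v ≤ M + L)
      (fun v => (rep (M : ℤ) v).toNat) (S.card * ((L : ℝ) / p)) E hA0 hE0 hcls
  rw [transfer p S M L hL2 (fun n => ∀ l ∈ (range (z + 1)).filter Nat.Prime, ¬ QF F l n)]
  have key2 : |((((S.filter fun v => rep (M : ℤ) v ≤ M + L).filter fun v =>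
      ∀ l ∈ (range (z + 1)).filter Nat.Prime, ¬ QF F l (rep (M : ℤ) v).toNat).card : ℕ) : ℝ) -
        S.card * ((L : ℝ) / p) * V F z| ≤
      (1 / 2) ^ B * (S.card * ((L : ℝ) / p) * V F z) + (J + 1) * (D : ℝ) ^ 2 * E := by
    have hVdef : V F z = ∏ l ∈ (range (z + 1)).filter Nat.Prime,
      (1 - (rr (QF F) l : ℝ) / l) := rfl
    rw [hVdef]
    convert key using 6
  refine key2.trans ?_
  obtain ⟨A, hA⟩ : ∃ A : ℝ, A = S.card * ((L : ℝ) / p) := ⟨_, rfl⟩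
  rw [← hA] at hA0 ⊢
  have hVp : 0 < V F z := V_pos hF z
  have h1 : (1 / 2 : ℝ) ^ B * (A * V F z) ≤ (1 / 2) ^ (b + 1) * (A * V F z) := by
    apply mul_le_mul_of_nonneg_right _ (by positivity)
    exact pow_le_pow_of_le_one (by norm_num) (by norm_num) hB2
  have h2 : ((J : ℝ) + 1) * (D : ℝ) ^ 2 * E ≤ (1 / 2) ^ (b + 1) * (A * V F z) := by
    have hzk : (0 : ℝ) < (z : ℝ) ^ (2 * κ) := by positivity
    have hJr : (J : ℝ) + 1 ≤ 2 * (z : ℝ) ^ 2 := by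
      have : ((J + 1 : ℕ) : ℝ) ≤ ((2 * z ^ 2 : ℕ) : ℝ) := by exact_mod_cast hJ3.trans hJ2
      push_cast at this
      exact this
    have h3 : ((J : ℝ) + 1) * (D : ℝ) ^ 2 ≤
        (K0 : ℝ) ^ 2 * 2 ^ (2 * C * B + 1) * (z : ℝ) ^ (2 * (2 * C * B + 1)) := by
      calc ((J : ℝ) + 1) * (D : ℝ) ^ 2 ≤
          (2 * (z : ℝ) ^ 2) * (K0 * (2 * (z : ℝ) ^ 2) ^ (C * B)) ^ 2 := by gcongr
        _ = (K0 : ℝ) ^ 2 * (2 * (z : ℝ) ^ 2) ^ (2 * C * B + 1) := by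
            rw [mul_pow, ← pow_mul, pow_succ, show C * B * 2 = 2 * C * B by ring]; ring
        _ = _ := by rw [mul_pow, ← pow_mul]; ring
    have h4 : E ≤ S.card * ((p : ℝ) ^ (-ε') * (3 + Real.log p)) := by
      have a1 : (p : ℝ) ^ (-ε) ≤ (p : ℝ) ^ (-ε') :=
        Real.rpow_le_rpow_of_exponent_le hp1 (by linarith)
      have a2 : 1 / (p : ℝ) ≤ (p : ℝ) ^ (-ε') := by
        rw [one_div, ← Real.rpow_neg_one]
        exact Real.rpow_le_rpow_of_exponent_le hp1 (by linarith)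
      have a3 : (0 : ℝ) ≤ S.card := Nat.cast_nonneg _
      have a4 : (p : ℝ) ^ (-ε) * (2 + Real.log p) ≤ (p : ℝ) ^ (-ε') * (2 + Real.log p) :=
        mul_le_mul_of_nonneg_right a1 (by linarith)
      rw [hE]
      have e : (p : ℝ) ^ (-ε) * S.card * (2 + Real.log p) + S.card / p =
        S.card * ((p : ℝ) ^ (-ε) * (2 + Real.log p) + 1 / p) := by ring
      rw [e]
      apply mul_le_mul_of_nonneg_left _ a3
      linarith
    have h5 : S.card * (p : ℝ) ^ (-(ε' / 8)) ≤ A := by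
      rw [hA]
      apply mul_le_mul_of_nonneg_left _ (Nat.cast_nonneg _)
      rw [le_div_iff₀ hp0]
      refine le_trans (le_of_eq ?_) ((Real.rpow_le_rpow_of_exponent_le hp1
        (show 1 - ε' / 8 ≤ 1 - δ by linarith)).trans hL1)
      rw [show (1 : ℝ) - ε' / 8 = -(ε' / 8) + 1 by ring, Real.rpow_add hp0, Real.rpow_one]
    have h6 := hzpow _ hG
    have h7 : (p : ℝ) ^ (ε' / 8) * ((p : ℝ) ^ (-ε') * (K1 * (3 + Real.log p))) ≤
        (p : ℝ) ^ (-(ε' / 8)) := by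
      calc (p : ℝ) ^ (ε' / 8) * ((p : ℝ) ^ (-ε') * (K1 * (3 + Real.log p))) ≤
          (p : ℝ) ^ (ε' / 8) * ((p : ℝ) ^ (-ε') * (p : ℝ) ^ (ε' / 2)) := by gcongr
        _ = (p : ℝ) ^ (ε' / 8 + (-ε' + ε' / 2)) := by
            rw [← Real.rpow_add hp0, ← Real.rpow_add hp0]
        _ ≤ _ := Real.rpow_le_rpow_of_exponent_le hp1 (by linarith)
    have hVz := hV z hz1
    have h8 : (K0 : ℝ) ^ 2 * 2 ^ (2 * C * B + 1) = K1 * cV * (1 / 2) ^ (b + 1) := by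
      have h2b : (2 : ℝ) ^ (b + 1) * (1 / 2) ^ (b + 1) = 1 := by
        rw [← mul_pow]; norm_num
      have e : K1 * cV * (1 / 2) ^ (b + 1) = (K0 : ℝ) ^ 2 * 2 ^ (2 * C * B + 1) *
          ((2 : ℝ) ^ (b + 1) * (1 / 2) ^ (b + 1)) := by
        rw [hK1]
        field_simp
      rw [e, h2b, mul_one]
    have hq1 : 0 ≤ (1 / 2 : ℝ) ^ (b + 1) * cV := mul_nonneg (pow_nonneg (by norm_num) _) hcV.le
    have hq2 : (0 : ℝ) ≤ (1 / 2 : ℝ) ^ (b + 1) := pow_nonneg (by norm_num) _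
    have hq3 : (0 : ℝ) ≤ S.card := Nat.cast_nonneg _
    -- multiply by z ^ (2 κ)
    have h9 : ((J : ℝ) + 1) * (D : ℝ) ^ 2 * E * (z : ℝ) ^ (2 * κ) ≤
        (1 / 2) ^ (b + 1) * (A * V F z) * (z : ℝ) ^ (2 * κ) := by
      calc ((J : ℝ) + 1) * (D : ℝ) ^ 2 * E * (z : ℝ) ^ (2 * κ) ≤
          ((K0 : ℝ) ^ 2 * 2 ^ (2 * C * B + 1) * (z : ℝ) ^ (2 * (2 * C * B + 1))) *
          (S.card * ((p : ℝ) ^ (-ε') * (3 + Real.log p))) * (z : ℝ) ^ (2 * κ) := by
            apply mul_le_mul_of_nonneg_right _ hzk.le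
            exact mul_le_mul h3 h4 hE0 (by positivity)
        _ = ((1 / 2) ^ (b + 1) * cV) * (S.card * ((z : ℝ) ^ (2 * (2 * C * B + 1) + 2 * κ) *
            ((p : ℝ) ^ (-ε') * (K1 * (3 + Real.log p))))) := by
            rw [h8, pow_add]
            ring
        _ ≤ ((1 / 2) ^ (b + 1) * cV) * (S.card * ((p : ℝ) ^ (ε' / 8) *
            ((p : ℝ) ^ (-ε') * (K1 * (3 + Real.log p))))) := by
            have h10 : 0 ≤ 3 + Real.log (p : ℝ) := by linarith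
            apply mul_le_mul_of_nonneg_left _ hq1
            apply mul_le_mul_of_nonneg_left _ hq3
            exact mul_le_mul_of_nonneg_right h6 (mul_nonneg (Real.rpow_nonneg hp0.le _)
              (mul_nonneg hK10.le h10))
        _ ≤ ((1 / 2) ^ (b + 1) * cV) * (S.card * (p : ℝ) ^ (-(ε' / 8))) := by
            apply mul_le_mul_of_nonneg_left _ hq1
            exact mul_le_mul_of_nonneg_left h7 hq3
        _ ≤ ((1 / 2) ^ (b + 1) * cV) * A := mul_le_mul_of_nonneg_left h5 hq1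
        _ ≤ ((1 / 2) ^ (b + 1) * (V F z * (z : ℝ) ^ (2 * κ))) * A := by
            apply mul_le_mul_of_nonneg_right _ hA0
            exact mul_le_mul_of_nonneg_left hVz hq2
        _ = _ := by ring
    exact le_of_mul_le_mul_right h9 hzk
  have h3 : (1 / 2 : ℝ) ^ (b + 1) * (A * V F z) + (1 / 2) ^ (b + 1) * (A * V F z) =
      (1 / 2) ^ b * (A * V F z) := by
    rw [pow_succ]; ring
  linarith

end Pool.Agent.Run7.h90.AP
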