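import Pool.Agent.Run7.h90.AP.Quad

/-!
# Almost primes and primes `n ^ 2 + 1`
-/

set_option autoImplicit false
set_option linter.all false

namespace Pool.Agent.Run7.h90.AP

open Finset Filter Topology
open Run7.h870.LI
open scoped Classical

/-- the sifted elements -/
noncomputable def sft (F : Polynomial ℤ) (z : ℕ) (A : Finset ℕ) : ℕ :=
  (A.filter fun n : ℕ => ∀ l : ℕ, l.Prime → l ≤ z → ¬ (l : ℤ) ∣ F.eval (n : ℤ)).card

/-- the elements of the progression in an interval -/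
noncomputable def orb (p : ℕ) (c g : ZMod p) (N M L : ℕ) : Finset ℕ :=
  (Ioc M (M + L)).filter fun n : ℕ => ∃ x < N, (n : ZMod p) = c * g ^ x

theorem geom' (F : Polynomial ℤ) (hF : ∀ l : ℕ, l.Prime → ∃ n : ℤ, ¬ (l : ℤ) ∣ F.eval n)
    (ε : ℝ) (hε : 0 < ε) : ∃ δ : ℝ, 0 < δ ∧ ∀ b : ℕ, 1 ≤ b → ∃ P₀ : ℝ, ∀ p : ℕ, p.Prime →
      P₀ ≤ p → ∀ c g : ZMod p, c ≠ 0 → g ≠ 0 → ∀ N : ℕ, (p : ℝ) ^ ε ≤ N → N ≤ orderOf g →
      ∀ M L z : ℕ, (p : ℝ) ^ (1 - δ) ≤ L → L ≤ p → 1 ≤ z → (z : ℝ) ≤ (p : ℝ) ^ (δ / b) →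
      |(sft F z (orb p c g N M L) : ℝ) - N * ((L : ℝ) / p) * V F z| ≤
        (1 / 2) ^ b * (N * ((L : ℝ) / p) * V F z) := by
  obtain ⟨δ, hδ, h⟩ := geom F hF ε hε
  refine ⟨δ, hδ, fun b hb => ?_⟩
  obtain ⟨P₀, h⟩ := h b hb
  refine ⟨P₀, ?_⟩
  intro p hpp hp c g hc hg N hN hNo M L z hL1 hL2 hz1 hz2
  have hfact : Fact p.Prime := ⟨hpp⟩
  have h1 := h p hp c g hc hg N hN hNo M L z hL1 hL2 hz1 hz2
  have e : sft F z (orb p c g N M L) = ((Ioc M (M + L)).filter fun n : ℕ =>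
      (∃ x < N, (n : ZMod p) = c * g ^ x) ∧
          ∀ l ∈ (range (z + 1)).filter Nat.Prime, ¬ QF F l n).card := by
    unfold sft orb
    rw [filter_filter]
    congr 1
    ext n
    simp only [mem_filter, mem_range, QF]
    constructor
    · rintro ⟨h2, h3, h4⟩
      exact ⟨h2, h3, fun l hl => h4 l hl.2 (by omega)⟩
    · rintro ⟨h2, h3, h4⟩
      exact ⟨h2, h3, fun l hl hlz => h4 l ⟨by omega, hl⟩⟩
  rw [e]
  exact h1

/-- the formula for `X ^ 2 + 1` with the constant -/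
theorem quad (c₀ : ℝ) (hc₀ : 0 < c₀) (hlim : Tendsto (fun z : ℕ => V F1 z * Real.log z) atTop (𝓝 c₀))
    (ε : ℝ) (hε : 0 < ε) : ∃ δ : ℝ, 0 < δ ∧ δ ≤ ε / 4 ∧ δ ≤ 1 ∧ ∀ b : ℕ, 1 ≤ b → ∃ z₀ : ℕ, ∀ p : ℕ,
      p.Prime → ∀ c g : ZMod p, c ≠ 0 → g ≠ 0 → ∀ N : ℕ, (p : ℝ) ^ ε ≤ N → N ≤ orderOf g →
      ∀ M L z : ℕ, (p : ℝ) ^ (1 - δ) ≤ L → L ≤ p → z₀ ≤ z → (z : ℝ) ≤ (p : ℝ) ^ (δ / b) →
      |(sft F1 z (orb p c g N M L) : ℝ) - c₀ * (N * ((L : ℝ) / p) / Real.log z)| ≤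
        (1 / 2) ^ b * (c₀ * (N * ((L : ℝ) / p) / Real.log z)) := by
  obtain ⟨δ, hδ, h⟩ := geom' F1 F1_adm ε hε
  obtain ⟨δ', hδ'⟩ : ∃ δ', δ' = min (min (δ / 2) (ε / 4)) 1 := ⟨_, rfl⟩
  have hδ'0 : 0 < δ' := by
    rw [hδ']
    exact lt_min (lt_min (by positivity) (by positivity)) one_pos
  have d1 : δ' ≤ δ / 2 := by rw [hδ']; exact (min_le_left _ _).trans (min_le_left _ _)
  have d2 : δ' ≤ ε / 4 := by rw [hδ']; exact (min_le_left _ _).trans (min_le_right _ _)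
  have d3 : δ' ≤ 1 := by rw [hδ']; exact min_le_right _ _
  refine ⟨δ', hδ'0, d2, d3, fun b hb => ?_⟩
  obtain ⟨P₀, h⟩ := h (b + 1) (by omega)
  obtain ⟨x, hx⟩ : ∃ x : ℝ, x = (1 / 2) ^ (b + 1) := ⟨_, rfl⟩
  have hx0 : 0 < x := by rw [hx]; positivity
  have hx1 : x ≤ 1 := by rw [hx]; exact pow_le_one₀ (by norm_num) (by norm_num)
  have hx2 : (1 / 2 : ℝ) ^ b = 2 * x := by rw [hx, pow_succ]; ring
  have h1 : ∀ᶠ z : ℕ in atTop, |V F1 z * Real.log z - c₀| ≤ x / 2 * c₀ := by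
    have := hlim.eventually (Metric.closedBall_mem_nhds c₀ (show 0 < x / 2 * c₀ by positivity))
    filter_upwards [this] with z hz
    rwa [Real.dist_eq] at hz
  obtain ⟨z₁, hz₁⟩ := eventually_atTop.1 h1
  obtain ⟨z₂, hz₂⟩ := exists_nat_ge P₀
  refine ⟨max z₁ (max z₂ 2), ?_⟩
  intro p hpp c g hc hg N hN hNo M L z hL1 hL2 hz hzp
  have hp1 : (1 : ℝ) ≤ p := by exact_mod_cast hpp.one_le
  have hb1 : (1 : ℝ) ≤ b := by exact_mod_cast hb
  have hz2 : 2 ≤ z := (le_max_right _ _).trans ((le_max_right _ _).trans hz)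
  have hzr : (2 : ℝ) ≤ z := by exact_mod_cast hz2
  have hlog : 0 < Real.log z := Real.log_pos (by linarith)
  have hz3 : (z : ℝ) ≤ p := by
    refine hzp.trans ?_
    calc (p : ℝ) ^ (δ' / b) ≤ (p : ℝ) ^ (1 : ℝ) := by
          apply Real.rpow_le_rpow_of_exponent_le hp1
          rw [div_le_one (by linarith)]
          linarith
      _ = p := Real.rpow_one _
  have hpP : P₀ ≤ p := by
    refine hz₂.trans (le_trans ?_ hz3)
    exact_mod_cast (le_max_left _ _).trans ((le_max_right _ _).trans hz)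
  have h2 := h p hpp hpP c g hc hg N hN hNo M L z
    (le_trans (Real.rpow_le_rpow_of_exponent_le hp1 (by linarith)) hL1) hL2 (by omega)
    (hzp.trans (Real.rpow_le_rpow_of_exponent_le hp1 (by
      push_cast
      rw [div_le_div_iff₀ (by linarith) (by linarith)]
      nlinarith)))
  have h3 := hz₁ z ((le_max_left _ _).trans hz)
  rw [← hx] at h2
  rw [hx2]
  obtain ⟨A, hA⟩ : ∃ A : ℝ, A = N * ((L : ℝ) / p) := ⟨_, rfl⟩
  have hA0 : 0 ≤ A := by rw [hA]; positivity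
  rw [← hA] at h2 ⊢
  obtain ⟨T, hT⟩ : ∃ T : ℝ, T = c₀ * (A / Real.log z) := ⟨_, rfl⟩
  have hT0 : 0 ≤ T := by rw [hT]; positivity
  rw [← hT]
  have h4 : |A * V F1 z - T| ≤ x / 2 * T := by
    have e : A * V F1 z - T = (A / Real.log z) * (V F1 z * Real.log z - c₀) := by
      rw [hT]
      field_simp
    rw [e, abs_mul, abs_of_nonneg (by positivity)]
    calc (A / Real.log z) * |V F1 z * Real.log z - c₀| ≤ (A / Real.log z) * (x / 2 * c₀) :=
          mul_le_mul_of_nonneg_left h3 (by positivity)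
      _ = _ := by rw [hT]; ring
  obtain ⟨B, hB⟩ : ∃ B : ℝ, B = A * V F1 z := ⟨_, rfl⟩
  rw [← hB] at h2 h4
  rw [abs_le] at h2 h4 ⊢
  have h5 : x * B ≤ x * (T + x / 2 * T) := mul_le_mul_of_nonneg_left (by linarith [h4.2]) hx0.le
  have h6 : x * (x * T) ≤ 1 * (x * T) := mul_le_mul_of_nonneg_right hx1 (by positivity)
  constructor
  · linarith [h2.1, h4.1]
  · linarith [h2.2, h4.2]

/-- the number of the prime factors -/
theorem few_factors (n z : ℕ) (p : ℝ) (δ : ℝ) (hp : 1 < p) (hδ : 0 < δ) (hz : p ^ δ ≤ z + 1)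
    (hn : ((n ^ 2 + 1 : ℕ) : ℝ) ≤ p ^ (3 : ℝ)) (h : ∀ l : ℕ, l.Prime → l ≤ z → ¬ (l : ℤ) ∣ F1.eval (n : ℤ)) :
    ((n ^ 2 + 1).primeFactorsList.length : ℝ) ≤ 3 / δ ∧
      ∀ l : ℕ, l ∈ (n ^ 2 + 1).primeFactorsList → p ^ δ ≤ l := by
  have h0 : n ^ 2 + 1 ≠ 0 := by positivity
  have h1 : ∀ l ∈ (n ^ 2 + 1).primeFactorsList, z + 1 ≤ l := by
    intro l hl
    rw [Nat.mem_primeFactorsList h0] at hl
    by_contra hlt
    refine h l hl.1 (by omega) ?_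
    rw [F1_eval]
    exact_mod_cast hl.2
  refine ⟨?_, fun l hl => hz.trans (by exact_mod_cast h1 l hl)⟩
  have h2 : (z + 1) ^ (n ^ 2 + 1).primeFactorsList.length ≤ n ^ 2 + 1 := by
    have := List.pow_card_le_prod (n ^ 2 + 1).primeFactorsList (z + 1) h1
    rwa [Nat.prod_primeFactorsList h0] at this
  obtain ⟨k, hk⟩ : ∃ k, k = (n ^ 2 + 1).primeFactorsList.length := ⟨_, rfl⟩
  rw [← hk] at h2 ⊢
  have h3 : (p ^ δ) ^ k ≤ p ^ (3 : ℝ) := by
    calc (p ^ δ) ^ k ≤ ((z : ℝ) + 1) ^ k := pow_le_pow_left₀ (by positivity) hz k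
      _ ≤ ((n ^ 2 + 1 : ℕ) : ℝ) := by exact_mod_cast h2
      _ ≤ _ := hn
  rw [← Real.rpow_natCast, ← Real.rpow_mul (by linarith)] at h3
  have h4 := (Real.rpow_le_rpow_left_iff hp).1 h3
  rw [le_div_iff₀ hδ]
  linarith

/-- almost primes and primes -/
theorem orders (c₀ : ℝ) (hc₀ : 0 < c₀)
    (hlim : Tendsto (fun z : ℕ => V F1 z * Real.log z) atTop (𝓝 c₀))
    (ε : ℝ) (hε : 0 < ε) : ∃ (r : ℕ) (δ κ K : ℝ), 0 < δ ∧ 0 < κ ∧ 0 < K ∧ ∃ P₀ : ℕ, ∀ p : ℕ, p.Prime →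
      P₀ ≤ p → ∀ c g : ZMod p, c ≠ 0 → g ≠ 0 → ∀ N : ℕ, (p : ℝ) ^ ε ≤ N → N ≤ orderOf g →
      ∀ M L : ℕ, M ≤ p → (p : ℝ) ^ (1 - δ) ≤ L → L ≤ p →
      κ * (N * ((L : ℝ) / p) / Real.log p) ≤ (((orb p c g N M L).filter fun n =>
        (n ^ 2 + 1).primeFactorsList.length ≤ r ∧
        ∀ l : ℕ, l ∈ (n ^ 2 + 1).primeFactorsList → (p : ℝ) ^ δ ≤ l).card : ℝ) ∧
      (((orb p c g N M L).filter fun n => (n ^ 2 + 1).Prime).card : ℝ) ≤
        K * (N * ((L : ℝ) / p) / Real.log p) := by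
  obtain ⟨δ, hδ, hδε, hδ1, h⟩ := quad c₀ hc₀ hlim ε hε
  obtain ⟨z₀, h⟩ := h 1 le_rfl
  refine ⟨⌊3 / δ⌋₊, δ, c₀ / (2 * δ), 4 * c₀ / δ + 1, hδ, by positivity, by positivity, ?_⟩
  have ev : ∀ᶠ p : ℕ in atTop, 10 ≤ p ∧ (z₀ : ℝ) + 2 ≤ (p : ℝ) ^ δ ∧
      Real.log p ≤ (p : ℝ) ^ (ε / 4) ∧ 2 ≤ (p : ℝ) ^ (δ / 2) := by
    refine (eventually_ge_atTop 10).and ((tendsto_natCast_atTop_atTop.eventually
      ((tendsto_rpow_atTop hδ).eventually_ge_atTop _)).and ((tendsto_natCast_atTop_atTop.eventually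
      (?_ : ∀ᶠ x : ℝ in atTop, Real.log x ≤ x ^ (ε / 4))).and
      (tendsto_natCast_atTop_atTop.eventually
      ((tendsto_rpow_atTop (show 0 < δ / 2 by positivity)).eventually_ge_atTop _))))
    filter_upwards [ev_log 1 (ε / 4) (by positivity)] with x hx
    linarith
  obtain ⟨P₀, hP₀⟩ := eventually_atTop.1 ev
  refine ⟨P₀, ?_⟩
  intro p hpp hpP c g hc hg N hN hNo M L hM hL1 hL2
  obtain ⟨hp10, hpz, hplog, hp2⟩ := hP₀ p hpP
  have hp0 : (10 : ℝ) ≤ p := by exact_mod_cast hp10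
  have hp1 : (1 : ℝ) < p := by linarith
  have hlogp : 0 < Real.log p := Real.log_pos hp1
  obtain ⟨z, hz⟩ : ∃ z, z = ⌊(p : ℝ) ^ δ⌋₊ := ⟨_, rfl⟩
  have hz1 : (z : ℝ) ≤ (p : ℝ) ^ δ := by rw [hz]; exact Nat.floor_le (by positivity)
  have hz2 : (p : ℝ) ^ δ ≤ z + 1 := by rw [hz]; exact (Nat.lt_floor_add_one _).le
  have hz0 : z₀ ≤ z := by
    have : (z₀ : ℝ) ≤ z := by linarith
    exact_mod_cast this
  have hzr : (1 : ℝ) ≤ z := by
    have : (0 : ℝ) ≤ z₀ := Nat.cast_nonneg _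
    linarith
  have hlz1 : Real.log z ≤ δ * Real.log p := by
    rw [← Real.log_rpow (by linarith)]
    exact Real.log_le_log (by linarith) hz1
  have hlz2 : δ / 2 * Real.log p ≤ Real.log z := by
    rw [← Real.log_rpow (by linarith)]
    apply Real.log_le_log (by positivity)
    have e : (p : ℝ) ^ δ = (p : ℝ) ^ (δ / 2) * (p : ℝ) ^ (δ / 2) := by
      rw [← Real.rpow_add (by linarith)]; congr 1; ring
    nlinarith
  have hlz0 : 0 < Real.log z := lt_of_lt_of_le (by positivity) hlz2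
  have h1 := h p hpp c g hc hg N hN hNo M L z hL1 hL2 hz0 (by
    rw [Nat.cast_one, div_one]; exact hz1)
  obtain ⟨A, hA⟩ : ∃ A : ℝ, A = N * ((L : ℝ) / p) := ⟨_, rfl⟩
  have hA0 : 0 ≤ A := by rw [hA]; positivity
  rw [← hA, pow_one, abs_le] at h1
  rw [← hA]
  have hAz1 : A / (δ * Real.log p) ≤ A / Real.log z :=
    div_le_div_of_nonneg_left hA0 hlz0 hlz1
  have hAz2 : A / Real.log z ≤ A / (δ / 2 * Real.log p) :=
    div_le_div_of_nonneg_left hA0 (by positivity) hlz2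
  constructor
  · have h2 : sft F1 z (orb p c g N M L) ≤ ((orb p c g N M L).filter fun n =>
        (n ^ 2 + 1).primeFactorsList.length ≤ ⌊3 / δ⌋₊ ∧
        ∀ l : ℕ, l ∈ (n ^ 2 + 1).primeFactorsList → (p : ℝ) ^ δ ≤ l).card := by
      unfold sft
      apply card_le_card
      intro n hn
      rw [mem_filter] at hn ⊢
      refine ⟨hn.1, ?_⟩
      have hn1 := hn.1
      unfold orb at hn1
      rw [mem_filter, mem_Ioc] at hn1
      have hn2 : n ≤ 2 * p := by omega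
      have h3 : ((n ^ 2 + 1 : ℕ) : ℝ) ≤ (p : ℝ) ^ (3 : ℝ) := by
        have e : (p : ℝ) ^ (3 : ℝ) = (p : ℝ) ^ 3 := by
          rw [← Real.rpow_natCast]; norm_num
        rw [e]
        push_cast
        have hn3 : (n : ℝ) ≤ 2 * p := by exact_mod_cast hn2
        have hn0 : (0 : ℝ) ≤ n := Nat.cast_nonneg _
        have h4 : (n : ℝ) ^ 2 ≤ 4 * (p : ℝ) ^ 2 := by nlinarith
        have h5 : 10 * (p : ℝ) ^ 2 ≤ (p : ℝ) ^ 3 := by
          have : (p : ℝ) ^ 3 = p * p ^ 2 := by ring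
          rw [this]
          exact mul_le_mul_of_nonneg_right hp0 (by positivity)
        nlinarith
      obtain ⟨h6, h7⟩ := few_factors n z p δ hp1 hδ hz2 h3 hn.2
      exact ⟨Nat.le_floor h6, h7⟩
    have h3 : (sft F1 z (orb p c g N M L) : ℝ) ≤ (((orb p c g N M L).filter fun n =>
        (n ^ 2 + 1).primeFactorsList.length ≤ ⌊3 / δ⌋₊ ∧
        ∀ l : ℕ, l ∈ (n ^ 2 + 1).primeFactorsList → (p : ℝ) ^ δ ≤ l).card : ℝ) := by exact_mod_cast h2
    refine le_trans ?_ h3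
    have h4 : c₀ / (2 * δ) * (A / Real.log p) = c₀ / 2 * (A / (δ * Real.log p)) := by
      field_simp
    rw [h4]
    have h5 := mul_le_mul_of_nonneg_left hAz1 (show 0 ≤ c₀ / 2 by positivity)
    linarith [h1.1]
  · have h2 : ((orb p c g N M L).filter fun n => (n ^ 2 + 1).Prime).card ≤
        sft F1 z (orb p c g N M L) + z := by
      unfold sft
      refine (card_le_card (t := ((orb p c g N M L).filter fun n : ℕ =>
        ∀ l : ℕ, l.Prime → l ≤ z → ¬ (l : ℤ) ∣ F1.eval (n : ℤ)) ∪ Ioc 0 z) ?_).trans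
        ((card_union_le _ _).trans (by rw [Nat.card_Ioc, Nat.sub_zero]))
      intro n hn
      rw [mem_filter] at hn
      rw [mem_union, mem_filter, mem_Ioc]
      by_cases hnz : n ^ 2 + 1 ≤ z
      · right
        constructor
        · have := hn.1
          unfold orb at this
          rw [mem_filter, mem_Ioc] at this
          omega
        · nlinarith
      · left
        refine ⟨hn.1, fun l hl hlz hd => ?_⟩
        rw [F1_eval] at hd
        have h3 : l ∣ n ^ 2 + 1 := by exact_mod_cast hd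
        rw [(Nat.prime_dvd_prime_iff_eq hl hn.2).1 h3] at hlz
        exact hnz hlz
    have h3 : (((orb p c g N M L).filter fun n => (n ^ 2 + 1).Prime).card : ℝ) ≤
        sft F1 z (orb p c g N M L) + z := by exact_mod_cast h2
    have h4 : (z : ℝ) ≤ A / Real.log p := by
      rw [le_div_iff₀ hlogp]
      have h5 : (p : ℝ) ^ (ε - δ) ≤ A := by
        rw [hA]
        have h6 : (p : ℝ) ^ (-δ) ≤ (L : ℝ) / p := by
          rw [le_div_iff₀ (by linarith)]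
          refine le_trans (le_of_eq ?_) hL1
          rw [show (1 : ℝ) - δ = -δ + 1 by ring, Real.rpow_add (by linarith), Real.rpow_one]
        calc (p : ℝ) ^ (ε - δ) = (p : ℝ) ^ ε * (p : ℝ) ^ (-δ) := by
              rw [← Real.rpow_add (by linarith)]; congr 1
          _ ≤ _ := mul_le_mul hN h6 (by positivity) (by positivity)
      calc (z : ℝ) * Real.log p ≤ (p : ℝ) ^ δ * (p : ℝ) ^ (ε / 4) :=
            mul_le_mul hz1 hplog hlogp.le (by positivity)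
        _ = (p : ℝ) ^ (δ + ε / 4) := by rw [← Real.rpow_add (by linarith)]
        _ ≤ (p : ℝ) ^ (ε - δ) := Real.rpow_le_rpow_of_exponent_le hp1.le (by linarith)
        _ ≤ A := h5
    have h5 : (4 * c₀ / δ + 1) * (A / Real.log p) = 2 * c₀ * (A / (δ / 2 * Real.log p)) +
        A / Real.log p := by
      field_simp
      ring
    rw [h5]
    have h6 := mul_le_mul_of_nonneg_left hAz2 hc₀.le
    have h7 : 0 ≤ c₀ * (A / (δ / 2 * Real.log p)) := by positivity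
    linarith [h1.2]

end Pool.Agent.Run7.h90.AP
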