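import Pool.Agent.Run7.h90.AP.Fam
import Pool.Agent.N825.FC.Core

/-!
# Values of a polynomial free of small prime factors on sets with small exponential sums
-/

set_option autoImplicit false
set_option linter.all false

namespace Pool.Agent.Run7.h90.AP

open Finset Filter
open Run7.h870.LI
open scoped Classical
open Polynomial (eval natDegree)

/-- divisibility of the value -/
def QF (F : Polynomial ℤ) (l n : ℕ) : Prop := (l : ℤ) ∣ F.eval (n : ℤ)

/-- the sieve product -/
noncomputable def V (F : Polynomial ℤ) (z : ℕ) : ℝ :=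
  ∏ l ∈ (range (z + 1)).filter Nat.Prime, (1 - (rr (QF F) l : ℝ) / l)

theorem per_QF (F : Polynomial ℤ) : Per (QF F) := by
  intro p n
  have h : (p : ℤ) ∣ F.eval ((n + p : ℕ) : ℤ) - F.eval (n : ℤ) := by
    have h1 : (((n + p : ℕ) : ℤ) - n) ∣ F.eval ((n + p : ℕ) : ℤ) - F.eval (n : ℤ) :=
      Polynomial.sub_dvd_eval_sub _ _ _
    push_cast at h1 ⊢
    rwa [add_sub_cancel_left] at h1
  unfold QF
  constructor
  · intro h2
    have := dvd_sub h2 h
    rwa [sub_sub_cancel] at this
  · intro h2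
    have := dvd_add h2 h
    rwa [add_sub_cancel] at this

theorem QF_map (F : Polynomial ℤ) (l n : ℕ) :
    QF F l n ↔ (F.map (Int.castRingHom (ZMod l))).eval (n : ZMod l) = 0 := by
  unfold QF
  rw [← ZMod.intCast_zmod_eq_zero_iff_dvd]
  have : ((F.eval (n : ℤ) : ℤ) : ZMod l) =
      (F.map (Int.castRingHom (ZMod l))).eval (n : ZMod l) := by
    have h := Polynomial.eval_intCast_map (Int.castRingHom (ZMod l)) F (n : ℤ)
    rw [eq_intCast, Int.cast_id] at h
    rw [← h]
    simp
  rw [this]

theorem rr_lt {F : Polynomial ℤ} {l : ℕ} (hl : l.Prime) (hF : ∃ n : ℤ, ¬ (l : ℤ) ∣ F.eval n) :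
    rr (QF F) l < l := by
  unfold rr
  obtain ⟨n, hn⟩ := hF
  have hl0 : (0 : ℤ) < l := by exact_mod_cast hl.pos
  obtain ⟨m, hm⟩ := Int.eq_ofNat_of_zero_le (Int.emod_nonneg n hl0.ne')
  have hml : m < l := by
    have := Int.emod_lt_of_pos n hl0
    rw [hm] at this
    exact_mod_cast this
  calc _ < (range l).card := by
        apply card_lt_card
        rw [ssubset_iff_subset_ne]
        refine ⟨filter_subset _ _, fun h => ?_⟩
        have h1 : m ∈ (range l).filter fun n => QF F l n := by
          rw [h]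
          exact mem_range.2 hml
        have h2 := (mem_filter.1 h1).2
        unfold QF at h2
        apply hn
        have h3 : ((m : ℤ) - n) ∣ F.eval (m : ℤ) - F.eval n := Polynomial.sub_dvd_eval_sub _ _ _
        have h4 : (l : ℤ) ∣ (m : ℤ) - n := by
          rw [← hm]
          exact (Int.modEq_iff_dvd.1 (Int.mod_modEq n l).symm)
        have h5 := dvd_sub h2 (h4.trans h3)
        rwa [sub_sub_cancel] at h5
    _ = l := card_range l

theorem rr_deg {F : Polynomial ℤ} {l : ℕ} (hl : l.Prime) (hF : ∃ n : ℤ, ¬ (l : ℤ) ∣ F.eval n) :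
    rr (QF F) l ≤ F.natDegree := by
  have hfact : Fact l.Prime := ⟨hl⟩
  set f := F.map (Int.castRingHom (ZMod l)) with hf
  have hf0 : f ≠ 0 := by
    intro h0
    have h1 := rr_lt hl hF
    unfold rr at h1
    rw [filter_true_of_mem, card_range] at h1
    · exact lt_irrefl _ h1
    · intro n _
      rw [QF_map, ← hf, h0, Polynomial.eval_zero]
  have h1 : rr (QF F) l ≤ f.roots.toFinset.card := by
    unfold rr
    apply card_le_card_of_injOn (fun n : ℕ => (n : ZMod l))
    · intro n hn
      rw [mem_coe, mem_filter, QF_map] at hn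
      rw [mem_coe, Multiset.mem_toFinset, Polynomial.mem_roots hf0]
      exact hn.2
    · intro a ha b hb hab
      rw [mem_coe, mem_filter, mem_range] at ha hb
      have h2 := (ZMod.natCast_eq_natCast_iff' a b l).1 hab
      rwa [Nat.mod_eq_of_lt ha.1, Nat.mod_eq_of_lt hb.1] at h2
  refine h1.trans ((Multiset.toFinset_card_le _).trans ((Polynomial.card_roots' f).trans ?_))
  exact Polynomial.natDegree_map_le

theorem V_pos {F : Polynomial ℤ} (hF : ∀ l : ℕ, l.Prime → ∃ n : ℤ, ¬ (l : ℤ) ∣ F.eval n) (z : ℕ) :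
    0 < V F z := by
  unfold V
  refine prod_pos fun l hl => ?_
  have hlp := (mem_filter.1 hl).2
  have h1 := rr_lt hlp (hF l hlp)
  have hl0 : (0 : ℝ) < l := by exact_mod_cast hlp.pos
  rw [sub_pos, div_lt_one hl0]
  exact_mod_cast h1

/-- a crude lower bound for the sieve product -/
theorem V_low {F : Polynomial ℤ} (hF : ∀ l : ℕ, l.Prime → ∃ n : ℤ, ¬ (l : ℤ) ∣ F.eval n) :
    ∃ c : ℝ, 0 < c ∧ ∀ z : ℕ, 1 ≤ z → c ≤ V F z * (z : ℝ) ^ (2 * F.natDegree) := by
  set κ := F.natDegree with hκ
  have hstep : ∀ z : ℕ, V F (z + 1) = V F z * (if (z + 1).Prime then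
      (1 - (rr (QF F) (z + 1) : ℝ) / ((z + 1 : ℕ) : ℝ)) else 1) := by
    intro z
    unfold V
    rw [range_add_one (n := z + 1), filter_insert]
    split_ifs with h
    · rw [prod_insert (by simp), mul_comm]
    · rw [mul_one]
  have hfac : ∀ z : ℕ, (if (z + 1).Prime then
      (1 - (rr (QF F) (z + 1) : ℝ) / ((z + 1 : ℕ) : ℝ)) else 1) ≤ 1 := by
    intro z
    split_ifs
    · have : 0 ≤ (rr (QF F) (z + 1) : ℝ) / ((z + 1 : ℕ) : ℝ) := by positivity
      linarith
    · exact le_rfl
  have hanti : ∀ z w : ℕ, z ≤ w → V F w ≤ V F z := by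
    intro z w h
    induction w, h using Nat.le_induction with
    | base => exact le_rfl
    | succ w _ ih =>
      rw [hstep]
      refine le_trans ?_ ih
      exact mul_le_of_le_one_right (V_pos hF w).le (hfac w)
  refine ⟨V F (2 * κ + 1), V_pos hF _, ?_⟩
  have hmono : ∀ w : ℕ, 2 * κ + 1 ≤ w → V F (2 * κ + 1) ≤ V F w * (w : ℝ) ^ (2 * κ) := by
    intro w h
    induction w, h using Nat.le_induction with
    | base =>
      have h1 : (1 : ℝ) ≤ ((2 * κ + 1 : ℕ) : ℝ) := by push_cast; linarith [(Nat.cast_nonneg κ : (0:ℝ) ≤ κ)]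
      exact le_mul_of_one_le_right (V_pos hF _).le (one_le_pow₀ h1)
    | succ w hw ih =>
      refine ih.trans ?_
      rw [hstep, mul_assoc]
      refine mul_le_mul_of_nonneg_left ?_ (V_pos hF w).le
      have hw0 : (0 : ℝ) < w := by
        have : 0 < w := by omega
        exact_mod_cast this
      have hwκ : (2 * κ : ℝ) ≤ w := by
        have : 2 * κ ≤ w := by omega
        exact_mod_cast this
      have hκ0 : (0 : ℝ) ≤ κ := Nat.cast_nonneg κ
      push_cast
      have hb : (1 : ℝ) + (2 * κ : ℕ) * (1 / w) ≤ (1 + 1 / w) ^ (2 * κ) :=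
        one_add_mul_le_pow (by have : 0 < 1 / (w : ℝ) := by positivity
                               linarith) _
      have hpow : ((w : ℝ) + 1) ^ (2 * κ) = (w : ℝ) ^ (2 * κ) * (1 + 1 / w) ^ (2 * κ) := by
        rw [← mul_pow]
        congr 1
        field_simp
      split_ifs with hp
      · have h1 : (rr (QF F) (w + 1) : ℝ) ≤ κ := by exact_mod_cast rr_deg hp (hF _ hp)
        have h2 : 1 - (κ : ℝ) / (w + 1) ≤ 1 - (rr (QF F) (w + 1) : ℝ) / (w + 1) := by
          have := div_le_div_of_nonneg_right h1 (show (0 : ℝ) ≤ w + 1 by linarith)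
          linarith
        have h3 : 1 ≤ (1 - (κ : ℝ) / (w + 1)) * (1 + 2 * κ * (1 / w)) := by
          have e : (1 - (κ : ℝ) / (w + 1)) * (1 + 2 * κ * (1 / w)) - 1 =
              κ * (w + 2 - 2 * κ) / ((w + 1) * w) := by
            field_simp
            ring
          have : 0 ≤ κ * (w + 2 - 2 * κ) / (((w : ℝ) + 1) * w) := by
            apply div_nonneg _ (by positivity)
            exact mul_nonneg hκ0 (by linarith)
          linarith
        have h4 : 0 ≤ 1 - (κ : ℝ) / (w + 1) := by
          rw [sub_nonneg, div_le_one (by linarith)]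
          linarith
        push_cast at hb
        calc (w : ℝ) ^ (2 * κ) = (w : ℝ) ^ (2 * κ) * 1 := (mul_one _).symm
          _ ≤ (w : ℝ) ^ (2 * κ) * ((1 - (κ : ℝ) / (w + 1)) * (1 + 2 * κ * (1 / w))) :=
              mul_le_mul_of_nonneg_left h3 (by positivity)
          _ ≤ (w : ℝ) ^ (2 * κ) * ((1 - (κ : ℝ) / (w + 1)) * (1 + 1 / w) ^ (2 * κ)) := by
              gcongr
          _ ≤ (w : ℝ) ^ (2 * κ) * ((1 - (rr (QF F) (w + 1) : ℝ) / (w + 1)) *
              (1 + 1 / w) ^ (2 * κ)) := by
              gcongr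
          _ = _ := by rw [hpow]; ring
      · rw [one_mul]
        exact pow_le_pow_left₀ hw0.le (by linarith) _
  intro z hz
  rcases le_or_gt (2 * κ + 1) z with h | h
  · exact hmono z h
  · have h1 : (1 : ℝ) ≤ (z : ℝ) := by exact_mod_cast hz
    refine (hanti z _ h.le).trans ?_
    exact le_mul_of_one_le_right (V_pos hF _).le (one_le_pow₀ h1)

end Pool.Agent.Run7.h90.AP
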