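import Pool.Agent.Run7.h90.AP.Fund
import Pool.Agent.Run7.h90.BGK.Final
import Pool.Agent.Y781.JR.Dens

/-!
# Geometric progressions modulo a prime; the polynomial `X ^ 2 + 1`
-/

set_option autoImplicit false
set_option linter.all false

namespace Pool.Agent.Run7.h90.AP

open Finset Filter Topology
open Run7.h870.LI
open scoped Classical
open Polynomial (X C)

/-- The fundamental lemma for geometric progressions. -/
theorem geom (F : Polynomial ℤ) (hF : ∀ l : ℕ, l.Prime → ∃ n : ℤ, ¬ (l : ℤ) ∣ F.eval n)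
    (ε : ℝ) (hε : 0 < ε) : ∃ δ : ℝ, 0 < δ ∧ ∀ b : ℕ, 1 ≤ b → ∃ P₀ : ℝ, ∀ (p : ℕ) [Fact p.Prime],
      P₀ ≤ p → ∀ c g : ZMod p, c ≠ 0 → g ≠ 0 → ∀ N : ℕ, (p : ℝ) ^ ε ≤ N → N ≤ orderOf g →
      ∀ M L z : ℕ, (p : ℝ) ^ (1 - δ) ≤ L → L ≤ p → 1 ≤ z → (z : ℝ) ≤ (p : ℝ) ^ (δ / b) →
      |(((Ioc M (M + L)).filter fun n : ℕ => (∃ x < N, (n : ZMod p) = c * g ^ x) ∧
          ∀ l ∈ (range (z + 1)).filter Nat.Prime, ¬ QF F l n).card : ℝ) -
        N * ((L : ℝ) / p) * V F z| ≤ (1 / 2) ^ b * (N * ((L : ℝ) / p) * V F z) := by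
  obtain ⟨ε₁, hε₁, P₁, hB⟩ := Pool.Agent.Run7.h90.BGK.bgk_geom ε hε
  obtain ⟨δ, hδ, h⟩ := fund F hF ε₁ hε₁
  refine ⟨δ, hδ, fun b hb => ?_⟩
  obtain ⟨P₂, h2⟩ := h b hb
  refine ⟨max P₁ P₂, ?_⟩
  intro p _ hp c g hc hg N hN hNo M L z hL1 hL2 hz1 hz2
  have hinj : Set.InjOn (fun x => c * g ^ x) (range N : Set ℕ) := by
    intro a ha b hb hab
    rw [mem_coe, mem_range] at ha hb
    have h3 : g ^ a = g ^ b := mul_left_cancel₀ hc hab
    exact (pow_injOn_Iio_orderOf (show a ∈ Set.Iio (orderOf g) from lt_of_lt_of_le ha hNo)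
      (show b ∈ Set.Iio (orderOf g) from lt_of_lt_of_le hb hNo) h3)
  obtain ⟨S, hS⟩ : ∃ S : Finset (ZMod p), S = (range N).image (fun x => c * g ^ x) := ⟨_, rfl⟩
  have hSc : S.card = N := by rw [hS, card_image_of_injOn hinj, card_range]
  have h4 := h2 p ((le_max_right _ _).trans hp) S (fun ξ hξ => by
    have h5 := hB p (by exact_mod_cast (le_max_left (P₁ : ℝ) P₂).trans hp) g hg N hN hNo (ξ * c) (mul_ne_zero hξ hc)
    rw [hSc]
    refine le_trans (le_of_eq ?_) h5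
    congr 1
    rw [hS, sum_image hinj]
    refine sum_congr rfl fun x _ => ?_
    rw [mul_assoc]) M L z hL1 hL2 hz1 hz2
  rw [hSc] at h4
  have h6 : (Ioc M (M + L)).filter (fun n : ℕ => (∃ x < N, (n : ZMod p) = c * g ^ x) ∧
          ∀ l ∈ (range (z + 1)).filter Nat.Prime, ¬ QF F l n) =
      (Ioc M (M + L)).filter (fun n : ℕ => (n : ZMod p) ∈ S ∧
          ∀ l ∈ (range (z + 1)).filter Nat.Prime, ¬ QF F l n) := by
    ext n
    have : (∃ x < N, (n : ZMod p) = c * g ^ x) ↔ (n : ZMod p) ∈ S := by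
      rw [hS, mem_image]
      constructor
      · rintro ⟨x, hx, hn⟩
        exact ⟨x, mem_range.2 hx, hn.symm⟩
      · rintro ⟨x, hx, hn⟩
        exact ⟨x, mem_range.1 hx, hn.symm⟩
    simp only [mem_filter, this]
  rw [h6]
  exact h4

/-- the polynomial -/
noncomputable def F1 : Polynomial ℤ := X ^ 2 + C 1

theorem F1_eval (n : ℤ) : F1.eval n = n ^ 2 + 1 := by
  unfold F1; simp

theorem F1_adm (l : ℕ) (hl : l.Prime) : ∃ n : ℤ, ¬ (l : ℤ) ∣ F1.eval n := by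
  refine ⟨0, fun h => ?_⟩
  rw [F1_eval] at h
  have h1 : (l : ℤ) ∣ 1 := by simpa using h
  have h2 : l ∣ 1 := by exact_mod_cast h1
  exact hl.one_lt.ne' (Nat.dvd_one.1 h2)

theorem V_eq (z : ℕ) : V F1 z = Pool.Agent.Y882.JR.dens 1 ((z + 1 : ℕ) : ℝ) := by
  unfold V Pool.Agent.Y882.JR.dens rr
  rw [Nat.ceil_natCast]
  refine prod_congr rfl fun l _ => ?_
  have : (range l).filter (fun n => QF F1 l n) =
      (range l).filter (fun m : ℕ => (l : ℤ) ∣ (m : ℤ) ^ 2 + 1) := by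
    apply filter_congr
    intro m _
    unfold QF
    rw [F1_eval]
  rw [this]

theorem V_lim : ∃ c : ℝ, 0 < c ∧
    Tendsto (fun x : ℕ => ∏ p ∈ (Finset.range (x + 1)).filter (fun p => p.Prime ∧ Odd p),
            (1 - (((ZMod.χ₄ (p : ZMod 4) : ℤ) : ℝ)) / ((p : ℝ) - 1))) atTop (𝓝 c) ∧
    Tendsto (fun z : ℕ => V F1 z * Real.log z) atTop
      (𝓝 (c * Real.exp (-Real.eulerMascheroniConstant))) := by
  have hns : ¬ IsSquare (-(1 : ℤ)) := by
    rintro ⟨r, hr⟩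
    nlinarith [mul_self_nonneg r]
  obtain ⟨C, hC, hR⟩ := Pool.Agent.Y781.JR.RR_conv 1 hns
  have hR' := hR.comp (tendsto_add_atTop_nat 1)
  refine ⟨C, hC, ?_, ?_⟩
  · refine hR'.congr (fun x => ?_)
    simp only [Function.comp]
    unfold Pool.Agent.Y781.JR.RR
    have hs : (range (x + 1)).filter (fun p : ℕ => p.Prime ∧ p ≠ 2) =
        (range (x + 1)).filter (fun p : ℕ => p.Prime ∧ Odd p) := by
      apply filter_congr
      intro p _
      constructor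
      · rintro ⟨h1, h2⟩
        exact ⟨h1, h1.odd_of_ne_two h2⟩
      · rintro ⟨h1, h2⟩
        refine ⟨h1, fun h => ?_⟩
        rw [h] at h2
        exact absurd h2 (by decide)
    rw [hs]
    refine prod_congr rfl (fun p hp => ?_)
    have h := (mem_filter.1 hp).2.2
    rw [jacobiSym.at_neg_one h]
  · have h := hR'.mul Pool.Agent.Y781.JR.GG_mertens
    refine h.congr (fun z => ?_)
    simp only [Function.comp]
    rw [V_eq, Pool.Agent.Y781.JR.dens_eq, Nat.ceil_natCast]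
    ring

end Pool.Agent.Run7.h90.AP
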